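import Mathlib
import Pool.Agent.TH277.CP.E
set_option autoImplicit false
set_option linter.unusedSectionVars false

/-! Extension operators of convex graphs over the unit disc: families with the decay of rough
convex phases. -/

namespace Pool.Agent.TH277.CS

open MeasureTheory Set Complex
open scoped ENNReal NNReal
open Pool.Agent.TH277.CP (sq_cont decay2 plancherel2 tint tint_lt)

/-- The square of the Euclidean length. -/
abbrev s2 (x : ℝ × ℝ) : ℝ := Pool.Agent.TH277.CP.sq x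

/-- the closed unit disc -/
def D1 : Set (ℝ × ℝ) := {x | s2 x ≤ 1}

lemma D1_meas : MeasurableSet D1 := measurableSet_le sq_cont.measurable measurable_const

lemma D1_sub : D1 ⊆ Icc (-1, -1) ((1 : ℝ), (1 : ℝ)) := by
  intro x hx
  have h : x.1 ^ 2 + x.2 ^ 2 ≤ 1 := hx
  have h1 : |x.1| ≤ 1 := by
    apply abs_le_of_sq_le_sq _ zero_le_one
    nlinarith [sq_nonneg x.2]
  have h2 : |x.2| ≤ 1 := by
    apply abs_le_of_sq_le_sq _ zero_le_one
    nlinarith [sq_nonneg x.1]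
  rw [abs_le] at h1 h2
  exact ⟨⟨h1.1, h2.1⟩, ⟨h1.2, h2.2⟩⟩

lemma D1_vol : volume D1 ≤ 4 := by
  refine (measure_mono D1_sub).trans ?_
  rw [← Icc_prod_Icc, Measure.volume_eq_prod, Measure.prod_prod, Real.volume_Icc]
  rw [← ENNReal.ofReal_mul (by norm_num)]
  norm_num

lemma D1_fin : volume D1 < ⊤ := D1_vol.trans_lt (by norm_num)

/-- The decay of rough convex phases on convex subsets of the unit disc. -/
theorem decay3 {K : Set (ℝ × ℝ)} {Ψ : ℝ × ℝ → ℝ} {τ : ℝ} (hτ : 1 ≤ τ) (hK : K ⊆ D1)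
    (hk : ConvexOn ℝ K fun x => Ψ x - τ * s2 x)
    (hm : Measurable (K.indicator fun x => cexp (I * Ψ x))) :
    ‖∫ x, K.indicator (fun x => cexp (I * Ψ x)) x‖ ≤ 32 * (1 + Real.log (4 * τ)) / τ := by
  set K' : Set (ℝ × ℝ) := (fun x : ℝ × ℝ => (2 : ℝ) • x) ⁻¹' K with hK'
  set Ψ' : ℝ × ℝ → ℝ := fun x => Ψ ((2 : ℝ) • x) with hΨ'
  have hind : ∀ x : ℝ × ℝ, K'.indicator (fun x => cexp (I * Ψ' x)) x =
      K.indicator (fun x => cexp (I * Ψ x)) ((2 : ℝ) • x) := by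
    intro x
    by_cases h : (2 : ℝ) • x ∈ K
    · rw [indicator_of_mem h, indicator_of_mem (show x ∈ K' from h)]
    · rw [indicator_of_notMem h, indicator_of_notMem (show x ∉ K' from h)]
  have hKd : K' ⊆ Pool.Agent.TH277.CP.disc := by
    intro x hx
    have h1 : s2 ((2 : ℝ) • x) ≤ 1 := hK hx
    have h2 : s2 ((2 : ℝ) • x) = 4 * s2 x := by
      unfold s2 Pool.Agent.TH277.CP.sq
      simp only [Prod.smul_fst, Prod.smul_snd, smul_eq_mul]
      ring
    rw [h2] at h1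
    show s2 x ≤ 1 / 4
    linarith
  have hk' : ConvexOn ℝ K' fun x => Ψ' x - (4 * τ) * s2 x := by
    have h1 := hk.comp_linearMap ((2 : ℝ) • (LinearMap.id : (ℝ × ℝ) →ₗ[ℝ] (ℝ × ℝ)))
    refine ⟨h1.1, ?_⟩
    intro x hx y hy a b ha hb hab
    have h2 := h1.2 hx hy ha hb hab
    have hb' : b = 1 - a := by linarith
    subst hb'
    simp only [Function.comp_apply, LinearMap.smul_apply, LinearMap.id_apply, s2, Pool.Agent.TH277.CP.sq, smul_eq_mul,
      Prod.fst_add, Prod.snd_add, Prod.smul_fst, Prod.smul_snd, hΨ'] at h2 ⊢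
    nlinarith [h2]
  have hm' : Measurable (K'.indicator fun x => cexp (I * Ψ' x)) := by
    have h1 : (K'.indicator fun x => cexp (I * Ψ' x)) =
        (K.indicator fun x => cexp (I * Ψ x)) ∘ fun x : ℝ × ℝ => (2 : ℝ) • x := by
      ext x
      exact hind x
    rw [h1]
    exact hm.comp (measurable_const_smul (2 : ℝ))
  have h1 := decay2 (τ := 4 * τ) (by linarith) hKd hk' hm'
  have h2 : ∫ x, K'.indicator (fun x => cexp (I * Ψ' x)) x =
      (1 / 4 : ℝ) • ∫ x, K.indicator (fun x => cexp (I * Ψ x)) x := by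
    simp only [hind]
    rw [Measure.integral_comp_smul volume (K.indicator fun x => cexp (I * Ψ x)) (2 : ℝ)]
    congr 1
    have hfr : Module.finrank ℝ (ℝ × ℝ) = 2 := by simp
    rw [hfr]
    norm_num
  rw [h2, norm_smul, Real.norm_of_nonneg (by norm_num)] at h1
  have h3 : 32 * (1 + Real.log (4 * τ)) / (4 * τ) = (1 / 4) * (32 * (1 + Real.log (4 * τ)) / τ) := by
    field_simp
  rw [h3] at h1
  linarith

/-- The decay estimate, for convex and for concave phases. -/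
lemma decay_sign {K : Set (ℝ × ℝ)} {Ψ : ℝ × ℝ → ℝ} {σ τ : ℝ} (hσ : σ = 1 ∨ σ = -1) (hτ : 1 ≤ τ)
    (hKd : K ⊆ D1) (hk : ConvexOn ℝ K (fun x => σ * Ψ x - τ * s2 x))
    (hm : Measurable (K.indicator fun x => cexp (I * Ψ x))) :
    ‖∫ x, K.indicator (fun x => cexp (I * Ψ x)) x‖ ≤ 32 * (1 + Real.log (4 * τ)) / τ := by
  rcases hσ with rfl | rfl
  · simp only [one_mul] at hk
    exact decay3 hτ hKd hk hm
  · have h1 : (K.indicator fun x => cexp (I * ((-Ψ x : ℝ) : ℂ))) =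
        fun x => (starRingEnd ℂ) (K.indicator (fun x => cexp (I * Ψ x)) x) := by
      ext x
      by_cases hx : x ∈ K
      · rw [indicator_of_mem hx, indicator_of_mem hx, ← Complex.exp_conj]
        congr 1
        simp
      · rw [indicator_of_notMem hx, indicator_of_notMem hx, map_zero]
    have h2 : Measurable (K.indicator fun x => cexp (I * ((-Ψ x : ℝ) : ℂ))) := by
      rw [h1]
      exact Complex.continuous_conj.measurable.comp hm
    have hk' : ConvexOn ℝ K (fun x => -Ψ x - τ * s2 x) := by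
      simpa only [neg_mul, one_mul] using hk
    have h3 := decay3 hτ hKd hk' h2
    rw [h1, integral_conj, RCLike.norm_conj] at h3
    exact h3

/-- The phase of the extension operator of the graph of `Γ`. -/
noncomputable def ph (Γ : ℝ × ℝ → ℝ) (ξ : (ℝ × ℝ) × ℝ) (x : ℝ × ℝ) : ℂ :=
  cexp (-(I * ((x.1 * ξ.1.1 + x.2 * ξ.1.2 + Γ x * ξ.2 : ℝ) : ℂ)))

lemma ph_norm (Γ : ℝ × ℝ → ℝ) (ξ : (ℝ × ℝ) × ℝ) (x : ℝ × ℝ) : ‖ph Γ ξ x‖ = 1 := by
  unfold ph
  rw [← mul_neg, mul_comm, ← ofReal_neg]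
  exact norm_exp_ofReal_mul_I _

lemma ph_meas2 {Γ : ℝ × ℝ → ℝ} (hΓ : Measurable Γ) :
    Measurable fun p : ((ℝ × ℝ) × ℝ) × (ℝ × ℝ) => ph Γ p.1 p.2 := by
  unfold ph
  have h : Measurable fun p : ((ℝ × ℝ) × ℝ) × (ℝ × ℝ) => Γ p.2 := hΓ.comp measurable_snd
  fun_prop

lemma ph_meas {Γ : ℝ × ℝ → ℝ} (hΓ : Measurable Γ) (ξ : (ℝ × ℝ) × ℝ) : Measurable (ph Γ ξ) :=
  (ph_meas2 hΓ).comp measurable_prodMk_left

variable {S : Type} [MeasurableSpace S]

/-- A family of functions on the unit disc with the decay of rough convex phases. -/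
structure Fam (Γ : ℝ × ℝ → ℝ) (κ B σ T : ℝ) (h : S → ℝ × ℝ → ℂ) : Prop where
  meas : Measurable (Function.uncurry h)
  supp : ∀ s x, x ∉ D1 → h s x = 0
  bd : ∀ s x, ‖h s x‖ ≤ B
  dec : ∀ s ξ, 1 ≤ κ * (-σ * ξ.2 - T) → ‖∫ x, ph Γ ξ x * h s x‖ ≤
    B * (32 * (1 + Real.log (4 * (κ * (-σ * ξ.2 - T)))) / (κ * (-σ * ξ.2 - T)))

/-- The superposition. -/
noncomputable def sup (ν : Measure S) (g : S → ℝ × ℝ → ℂ) (x : ℝ × ℝ) : ℂ := ∫ s, g s x ∂ν

variable {Γ : ℝ × ℝ → ℝ} {κ B σ T : ℝ} {h : S → ℝ × ℝ → ℂ}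

lemma sup_supp (ν : Measure S) (hh : Fam Γ κ B σ T h) {x : ℝ × ℝ} (hx : x ∉ D1) :
    sup ν h x = 0 := by
  unfold sup
  simp only [hh.supp _ x hx, integral_zero]

lemma sup_norm (ν : Measure S) [IsFiniteMeasure ν] (hh : Fam Γ κ B σ T h) (x : ℝ × ℝ) :
    ‖sup ν h x‖ ≤ B * ν.real univ := by
  unfold sup
  exact norm_integral_le_of_norm_le_const (ae_of_all _ fun s => hh.bd s x)

lemma sup_meas (ν : Measure S) [IsFiniteMeasure ν] {g : S → ℝ × ℝ → ℂ}
    (hm : Measurable (Function.uncurry g)) : StronglyMeasurable (sup ν g) := by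
  unfold sup
  have h1 : StronglyMeasurable (Function.uncurry fun (x : ℝ × ℝ) (s : S) => g s x) :=
    (hm.comp measurable_swap).stronglyMeasurable
  exact h1.integral_prod_right

lemma ext_swap (hΓ : Measurable Γ) (ν : Measure S) [IsFiniteMeasure ν] (hh : Fam Γ κ B σ T h)
    (ξ : (ℝ × ℝ) × ℝ) :
    ∫ x, ph Γ ξ x * sup ν h x = ∫ s, (∫ x, ph Γ ξ x * h s x) ∂ν := by
  have h1 : ∀ s, ∫ x, ph Γ ξ x * h s x = ∫ x in D1, ph Γ ξ x * h s x := by
    intro s
    symm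
    apply setIntegral_eq_integral_of_forall_compl_eq_zero
    intro x hx
    rw [hh.supp s x hx, mul_zero]
  have h2 : ∫ x, ph Γ ξ x * sup ν h x = ∫ x in D1, ph Γ ξ x * sup ν h x := by
    symm
    apply setIntegral_eq_integral_of_forall_compl_eq_zero
    intro x hx
    rw [sup_supp ν hh hx, mul_zero]
  simp only [h1]
  rw [h2]
  have h3 : ∀ x, ph Γ ξ x * sup ν h x = ∫ s, ph Γ ξ x * h s x ∂ν := by
    intro x
    unfold sup
    rw [integral_const_mul]
  simp only [h3]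
  apply integral_integral_swap
  have hfin : IsFiniteMeasure ((volume : Measure (ℝ × ℝ)).restrict D1) :=
    ⟨by rw [Measure.restrict_apply_univ]; exact D1_fin⟩
  refine Integrable.of_bound (C := B) ?_ ?_
  · apply Measurable.aestronglyMeasurable
    exact ((ph_meas hΓ ξ).comp measurable_fst).mul (hh.meas.comp measurable_swap)
  · refine ae_of_all _ fun p => ?_
    simp only [Function.uncurry]
    rw [norm_mul, ph_norm, one_mul]
    exact hh.bd _ _

lemma triv (hB : 0 ≤ B) (hh : Fam Γ κ B σ T h) (s : S) (ξ : (ℝ × ℝ) × ℝ) :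
    ‖∫ x, ph Γ ξ x * h s x‖ ≤ 4 * B := by
  have h1 : ∫ x, ph Γ ξ x * h s x = ∫ x in D1, ph Γ ξ x * h s x := by
    symm
    apply setIntegral_eq_integral_of_forall_compl_eq_zero
    intro x hx
    rw [hh.supp s x hx, mul_zero]
  rw [h1]
  calc ‖∫ x in D1, ph Γ ξ x * h s x‖ ≤ B * (volume D1).toReal := by
        apply norm_setIntegral_le_of_norm_le_const D1_fin
        intro x _
        rw [norm_mul, ph_norm, one_mul]
        exact hh.bd s x
    _ ≤ B * 4 := by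
        gcongr
        have := ENNReal.toReal_mono (by norm_num) D1_vol
        simpa using this
    _ = 4 * B := mul_comm _ _

/-- The pointwise bound. -/
lemma sup_decay {ε : ℝ} (hε : 0 < ε) (hB : 0 ≤ B) (hΓ : Measurable Γ) (ν : Measure S)
    [IsFiniteMeasure ν] (hh : Fam Γ κ B σ T h) (ξ : (ℝ × ℝ) × ℝ) :
    ‖∫ x, ph Γ ξ x * sup ν h x‖ ≤
      ν.real univ * (B * (32 * (3 + 1 / ε)) * (max 1 (κ * (-σ * ξ.2 - T))) ^ (-(1 - ε))) := by
  rw [ext_swap hΓ ν hh ξ]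
  have key : ∀ s, ‖∫ x, ph Γ ξ x * h s x‖ ≤
      B * (32 * (3 + 1 / ε)) * (max 1 (κ * (-σ * ξ.2 - T))) ^ (-(1 - ε)) := by
    intro s
    set τ : ℝ := κ * (-σ * ξ.2 - T) with hτ
    rcases le_or_gt 1 τ with h0 | h0
    · have h1 := hh.dec s ξ h0
      refine h1.trans ?_
      rw [← hτ, max_eq_right h0, mul_assoc]
      gcongr
      have hτ0 : 0 < τ := by linarith
      have h2 : Real.log τ ≤ τ ^ ε / ε := Real.log_le_rpow_div hτ0.le hε
      have h3 : 1 ≤ τ ^ ε := Real.one_le_rpow h0 hε.le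
      have h4 : τ ^ (-(1 - ε)) = τ ^ ε / τ := by
        rw [show -(1 - ε) = ε - 1 by ring, Real.rpow_sub hτ0, Real.rpow_one]
      rw [h4, div_le_iff₀ hτ0]
      have h5 : 32 * (3 + 1 / ε) * (τ ^ ε / τ) * τ = 32 * (3 * τ ^ ε + τ ^ ε / ε) := by
        field_simp
      rw [h5, Real.log_mul (by norm_num) hτ0.ne']
      have h6 : Real.log 4 ≤ 2 := by
        have h7 : Real.log 4 = 2 * Real.log 2 := by
          rw [show (4 : ℝ) = 2 ^ 2 by norm_num, Real.log_pow]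
          norm_num
        have := Real.log_two_lt_d9
        linarith
      linarith
    · rw [max_eq_left h0.le, Real.one_rpow, mul_one]
      refine (triv hB hh s ξ).trans ?_
      have : 0 < 1 / ε := by positivity
      nlinarith
  calc ‖∫ s, (∫ x, ph Γ ξ x * h s x) ∂ν‖ ≤
        (B * (32 * (3 + 1 / ε)) * (max 1 (κ * (-σ * ξ.2 - T))) ^ (-(1 - ε))) * ν.real univ :=
        norm_integral_le_of_norm_le_const (ae_of_all _ key)
    _ = _ := mul_comm _ _

/-- Plancherel in the first two variables. -/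
lemma sup_planch (hΓ : Measurable Γ) (ν : Measure S) [IsFiniteMeasure ν] (hh : Fam Γ κ B σ T h)
    (t : ℝ) :
    ∫⁻ X : ℝ × ℝ, ‖∫ x, ph Γ (X, t) x * sup ν h x‖ₑ ^ 2 =
      ENNReal.ofReal ((2 * Real.pi) ^ 2) * ∫⁻ x, ‖sup ν h x‖ₑ ^ 2 := by
  set F : ℝ × ℝ → ℂ := fun x => cexp (-(I * ((Γ x * t : ℝ) : ℂ))) * sup ν h x with hF
  have hcm : Measurable fun x : ℝ × ℝ => cexp (-(I * ((Γ x * t : ℝ) : ℂ))) := by fun_prop
  have hFm : AEStronglyMeasurable F :=
    hcm.aestronglyMeasurable.mul (sup_meas ν hh.meas).aestronglyMeasurable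
  have hFn : ∀ x, ‖F x‖ = ‖sup ν h x‖ := by
    intro x
    simp only [hF]
    rw [norm_mul, ← mul_neg, mul_comm I, ← ofReal_neg, norm_exp_ofReal_mul_I, one_mul]
  have hFs : ∀ x, x ∉ D1 → F x = 0 := by
    intro x hx
    simp only [hF]
    rw [sup_supp ν hh hx, mul_zero]
  have hfin : IsFiniteMeasure ((volume : Measure (ℝ × ℝ)).restrict D1) :=
    ⟨by rw [Measure.restrict_apply_univ]; exact D1_fin⟩
  have hFi : F = D1.indicator F := by
    ext x
    by_cases hx : x ∈ D1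
    · rw [indicator_of_mem hx]
    · rw [indicator_of_notMem hx, hFs x hx]
  have hbd : ∀ x, ‖F x‖ ≤ B * ν.real univ := fun x => (hFn x).le.trans (sup_norm ν hh x)
  have h1 : Integrable F := by
    rw [hFi, integrable_indicator_iff D1_meas]
    exact IntegrableOn.of_bound D1_fin hFm.restrict _ (ae_of_all _ hbd)
  have h2 : MemLp F 2 := by
    rw [hFi, memLp_indicator_iff_restrict D1_meas]
    exact MemLp.of_bound hFm.restrict _ (ae_of_all _ hbd)
  have h3 := plancherel2 F h1 h2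
  have h4 : ∀ x, ‖F x‖ₑ = ‖sup ν h x‖ₑ := by
    intro x
    rw [← ofReal_norm, hFn x, ofReal_norm]
  simp only [h4] at h3
  rw [← h3]
  apply lintegral_congr
  intro X
  congr 2
  apply integral_congr_ae
  refine ae_of_all _ fun x => ?_
  simp only [hF]
  rw [← mul_assoc]
  congr 1
  unfold ph
  rw [← Complex.exp_add]
  congr 1
  push_cast
  ring

/-- The constant. -/
noncomputable def cst (q κ B : ℝ) : ℝ≥0∞ :=
  ENNReal.ofReal (B * (32 * (3 + 1 / ((q - 3) / (2 * (q - 2)))))) ^ (q - 2) *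
    ENNReal.ofReal ((2 * Real.pi) ^ 2) * (ENNReal.ofReal κ⁻¹ * tint q)

lemma cst_lt (q κ B : ℝ) (hq : 3 < q) : cst q κ B < ⊤ := by
  unfold cst
  apply ENNReal.mul_lt_top (ENNReal.mul_lt_top _ ENNReal.ofReal_lt_top)
    (ENNReal.mul_lt_top ENNReal.ofReal_lt_top (tint_lt q hq))
  exact ENNReal.rpow_lt_top_of_nonneg (by linarith) ENNReal.ofReal_ne_top

lemma E_meas (hΓ : Measurable Γ) (f : ℝ × ℝ → ℂ) (hf : StronglyMeasurable f) :
    Measurable fun ξ : (ℝ × ℝ) × ℝ => ‖∫ x, ph Γ ξ x * f x‖ₑ := by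
  have h2 : StronglyMeasurable
      (Function.uncurry fun (ξ : (ℝ × ℝ) × ℝ) (x : ℝ × ℝ) => ph Γ ξ x * f x) := by
    apply StronglyMeasurable.mul
    · exact (ph_meas2 hΓ).stronglyMeasurable
    · exact hf.comp_measurable measurable_snd
  exact h2.integral_prod_right.measurable.enorm

/-- A linear change of variables of the time. -/
lemma time_change (hσ : σ = 1 ∨ σ = -1) (hκ : 0 < κ) (T : ℝ) (F : ℝ → ℝ≥0∞) (hF : Measurable F) :
    ∫⁻ t in {t : ℝ | σ * t < -T}, F (κ * (-σ * t - T)) =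
      ENNReal.ofReal κ⁻¹ * ∫⁻ τ in Ioi (0 : ℝ), F τ := by
  rw [Pool.Agent.TH277.CP.time_change hσ T (fun τ => F (κ * τ))
    (hF.comp (measurable_const_mul κ))]
  rw [← lintegral_indicator measurableSet_Ioi, ← lintegral_indicator measurableSet_Ioi]
  have h1 : ∀ τ, (Ioi (0 : ℝ)).indicator (fun τ => F (κ * τ)) τ =
      (Ioi (0 : ℝ)).indicator F (κ * τ) := by
    intro τ
    by_cases h : 0 < τ
    · rw [indicator_of_mem (show τ ∈ Ioi (0 : ℝ) from h), indicator_of_mem]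
      exact mul_pos hκ h
    · rw [indicator_of_notMem (show τ ∉ Ioi (0 : ℝ) from h), indicator_of_notMem]
      intro h2
      exact h ((mul_pos_iff_of_pos_left hκ).1 h2)
  simp only [h1]
  have h2 := Real.map_volume_mul_left hκ.ne'
  have h3 : MeasurableEmbedding (fun t : ℝ => κ * t) :=
    (Homeomorph.mulLeft₀ κ hκ.ne').measurableEmbedding
  rw [← h3.lintegral_map, h2, lintegral_smul_measure, smul_eq_mul, abs_of_pos (inv_pos.2 hκ)]

theorem main (q : ℝ) (hq : 3 < q) (hσ : σ = 1 ∨ σ = -1) (hκ : 0 < κ) (hB : 0 ≤ B)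
    (hΓ : Measurable Γ) (ν : Measure S) [IsFiniteMeasure ν] (hh : Fam Γ κ B σ T h) :
    ∫⁻ ξ in {ξ : (ℝ × ℝ) × ℝ | σ * ξ.2 < -T}, ‖∫ x, ph Γ ξ x * sup ν h x‖ₑ ^ q ≤
      cst q κ B * ν univ ^ (q - 2) * ∫⁻ x, ‖sup ν h x‖ₑ ^ (2 : ℝ) := by
  set ε : ℝ := (q - 3) / (2 * (q - 2)) with hε
  have hε0 : 0 < ε := div_pos (by linarith) (by linarith)
  have hq2 : 0 < q - 2 := by linarith
  have hexp : -(1 - ε) * (q - 2) = -((q - 1) / 2) := by
    rw [hε]
    field_simp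
    ring
  set Φ : (ℝ × ℝ) × ℝ → ℝ≥0∞ := fun ξ => ‖∫ x, ph Γ ξ x * sup ν h x‖ₑ with hΦ
  have hΦm : Measurable Φ := E_meas hΓ _ (sup_meas ν hh.meas)
  set A : Set ℝ := {t : ℝ | σ * t < -T} with hA
  have hAm : MeasurableSet A :=
    measurableSet_lt (measurable_const.mul measurable_id) measurable_const
  have hset : {ξ : (ℝ × ℝ) × ℝ | σ * ξ.2 < -T} = univ ×ˢ A := by
    ext ξ
    simp [hA]
  rw [hset, Measure.volume_eq_prod, ← Measure.prod_restrict, Measure.restrict_univ,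
    lintegral_prod_symm _ (hΦm.pow_const q).aemeasurable]
  set L : ℝ≥0∞ := ∫⁻ x, ‖sup ν h x‖ₑ ^ (2 : ℝ) with hL
  have hL2 : ∫⁻ x, ‖sup ν h x‖ₑ ^ 2 = L := by
    rw [hL]
    apply lintegral_congr
    intro x
    rw [← ENNReal.rpow_natCast]
    norm_num
  set Bε : ℝ := B * (32 * (3 + 1 / ε)) with hBε
  have hBε0 : 0 ≤ Bε := by positivity
  have hfix : ∀ t : ℝ, ∫⁻ X : ℝ × ℝ, Φ (X, t) ^ q ≤
      (ν univ ^ (q - 2) * ENNReal.ofReal Bε ^ (q - 2) *
        ENNReal.ofReal ((max 1 (κ * (-σ * t - T))) ^ (-((q - 1) / 2)))) *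
        (ENNReal.ofReal ((2 * Real.pi) ^ 2) * L) := by
    intro t
    set m : ℝ := max 1 (κ * (-σ * t - T)) with hmdef
    have hm1 : 1 ≤ m := le_max_left _ _
    have hm0 : 0 < m := by linarith
    set B' : ℝ≥0∞ := ν univ * (ENNReal.ofReal Bε * ENNReal.ofReal (m ^ (-(1 - ε))))
      with hB'
    have hle : ∀ X : ℝ × ℝ, Φ (X, t) ≤ B' := by
      intro X
      have h1 := sup_decay hε0 hB hΓ ν hh (X, t)
      simp only at h1
      rw [← hmdef] at h1
      simp only [hΦ]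
      rw [← ofReal_norm]
      refine (ENNReal.ofReal_le_ofReal h1).trans (le_of_eq ?_)
      rw [hB', ENNReal.ofReal_mul measureReal_nonneg, ENNReal.ofReal_mul hBε0,
        Measure.real, ENNReal.ofReal_toReal (measure_ne_top ν univ)]
    have hpt : ∀ X : ℝ × ℝ, Φ (X, t) ^ q ≤ B' ^ (q - 2) * Φ (X, t) ^ 2 := by
      intro X
      have h1 : Φ (X, t) ^ q = Φ (X, t) ^ (q - 2) * Φ (X, t) ^ 2 := by
        have h2 : Φ (X, t) ^ 2 = Φ (X, t) ^ (2 : ℝ) := by
          rw [← ENNReal.rpow_natCast]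
          norm_num
        rw [h2, ← ENNReal.rpow_add_of_nonneg _ _ hq2.le (by norm_num)]
        congr 1
        ring
      rw [h1]
      gcongr
      exact hle X
    have hsm : Measurable fun X : ℝ × ℝ => Φ (X, t) ^ 2 :=
      (hΦm.comp measurable_prodMk_right).pow_const 2
    calc ∫⁻ X : ℝ × ℝ, Φ (X, t) ^ q ≤ ∫⁻ X : ℝ × ℝ, B' ^ (q - 2) * Φ (X, t) ^ 2 :=
          lintegral_mono hpt
      _ = B' ^ (q - 2) * ∫⁻ X : ℝ × ℝ, Φ (X, t) ^ 2 := lintegral_const_mul _ hsm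
      _ = B' ^ (q - 2) * (ENNReal.ofReal ((2 * Real.pi) ^ 2) * L) := by
          simp only [hΦ]
          rw [sup_planch hΓ ν hh t, hL2]
      _ = _ := by
          congr 1
          rw [hB', ENNReal.mul_rpow_of_nonneg _ _ hq2.le, ENNReal.mul_rpow_of_nonneg _ _ hq2.le,
            ← mul_assoc]
          congr 1
          rw [ENNReal.ofReal_rpow_of_nonneg (by positivity) hq2.le, ← Real.rpow_mul hm0.le, hexp]
  have hmf : Measurable fun τ : ℝ => ENNReal.ofReal ((max 1 τ) ^ (-((q - 1) / 2))) := by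
    fun_prop
  calc ∫⁻ t in A, ∫⁻ X : ℝ × ℝ, Φ (X, t) ^ q
      ≤ ∫⁻ t in A, (ν univ ^ (q - 2) * ENNReal.ofReal Bε ^ (q - 2) *
        ENNReal.ofReal ((max 1 (κ * (-σ * t - T))) ^ (-((q - 1) / 2)))) *
        (ENNReal.ofReal ((2 * Real.pi) ^ 2) * L) := lintegral_mono fun t => hfix t
    _ = (ν univ ^ (q - 2) * ENNReal.ofReal Bε ^ (q - 2) * (ENNReal.ofReal κ⁻¹ * tint q)) *
        (ENNReal.ofReal ((2 * Real.pi) ^ 2) * L) := by
        rw [lintegral_mul_const _ (by fun_prop), lintegral_const_mul _ (by fun_prop)]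
        congr 2
        unfold tint
        exact time_change hσ hκ T _ hmf
    _ = cst q κ B * ν univ ^ (q - 2) * L := by
        unfold cst
        rw [← hε, ← hBε]
        ring

end Pool.Agent.TH277.CS
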