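import Mathlib
import Pool.Agent.TH277.CS.A
set_option autoImplicit false
set_option linter.unusedSectionVars false

/-! The half sphere as a convex graph, and its surface density. -/

namespace Pool.Agent.TH277.CS

open MeasureTheory Set Complex
open scoped ENNReal NNReal

lemma s2_nonneg (x : ℝ × ℝ) : 0 ≤ s2 x := by
  show 0 ≤ x.1 ^ 2 + x.2 ^ 2
  positivity

/-- the lower half sphere -/
noncomputable def Gs (x : ℝ × ℝ) : ℝ := -Real.sqrt (1 - s2 x)

lemma s2_meas : Measurable s2 := Pool.Agent.TH277.CP.sq_cont.measurable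

lemma Gs_meas : Measurable Gs := (measurable_const.sub s2_meas).sqrt.neg

/-- the one variable profile -/
noncomputable def hp (s : ℝ) : ℝ := -Real.sqrt (1 - s) - (1 / 2) * s

lemma hp_conv : ConvexOn ℝ (Iic (1 : ℝ)) hp := by
  have h1 : ConcaveOn ℝ (Ici (0 : ℝ)) Real.sqrt := Real.strictConcaveOn_sqrt.concaveOn
  refine ⟨convex_Iic 1, ?_⟩
  intro x hx y hy a b ha hb hab
  have hx1 : 0 ≤ 1 - x := sub_nonneg.2 hx
  have hy1 : 0 ≤ 1 - y := sub_nonneg.2 hy
  have h2 := h1.2 (x := 1 - x) (y := 1 - y) hx1 hy1 ha hb hab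
  simp only [smul_eq_mul] at h2 ⊢
  have h3 : a * (1 - x) + b * (1 - y) = 1 - (a * x + b * y) := by
    have : b = 1 - a := by linarith
    subst this
    ring
  rw [h3] at h2
  unfold hp
  nlinarith

lemma hp_mono : MonotoneOn hp (Icc 0 1) := by
  intro x hx y hy hxy
  unfold hp
  set u := Real.sqrt (1 - x) with hu
  set v := Real.sqrt (1 - y) with hv
  have hx1 : 0 ≤ 1 - x := by linarith [hx.2]
  have hy1 : 0 ≤ 1 - y := by linarith [hy.2]
  have h1 : u ^ 2 = 1 - x := Real.sq_sqrt hx1
  have h2 : v ^ 2 = 1 - y := Real.sq_sqrt hy1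
  have h3 : v ≤ u := Real.sqrt_le_sqrt (by linarith)
  have h4 : u ≤ 1 := Real.sqrt_le_one.2 (by linarith [hx.1])
  have h5 : 0 ≤ v := Real.sqrt_nonneg _
  nlinarith

/-- The sphere is more convex than the paraboloid. -/
lemma Gs_conv {K : Set (ℝ × ℝ)} (hK : Convex ℝ K) (hK1 : K ⊆ D1) :
    ConvexOn ℝ K fun x => Gs x - (1 / 2) * s2 x := by
  refine ⟨hK, ?_⟩
  intro x hx y hy a b ha hb hab
  have h0 : s2 (a • x + b • y) ≤ a * s2 x + b * s2 y := by
    have : b = 1 - a := by linarith
    subst this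
    simp only [s2, Pool.Agent.TH277.CP.sq, Prod.fst_add, Prod.snd_add, Prod.smul_fst,
      Prod.smul_snd, smul_eq_mul]
    nlinarith [mul_nonneg (mul_nonneg ha hb) (_root_.sq_nonneg (x.1 - y.1)),
      mul_nonneg (mul_nonneg ha hb) (_root_.sq_nonneg (x.2 - y.2))]
  have hx1 : s2 x ≤ 1 := hK1 hx
  have hy1 : s2 y ≤ 1 := hK1 hy
  have h1 : a * s2 x + b * s2 y ≤ 1 := by
    calc a * s2 x + b * s2 y ≤ a * 1 + b * 1 := by gcongr
      _ = 1 := by linarith
  have h2 : hp (s2 (a • x + b • y)) ≤ hp (a * s2 x + b * s2 y) := by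
    apply hp_mono _ _ h0
    · exact ⟨s2_nonneg _, h0.trans h1⟩
    · refine ⟨?_, h1⟩
      have := s2_nonneg x
      have := s2_nonneg y
      positivity
  have h3 := hp_conv.2 (x := s2 x) (y := s2 y) hx1 hy1 ha hb hab
  simp only [smul_eq_mul] at h3 ⊢
  unfold hp at h2 h3
  unfold Gs
  linarith

/-- the surface density -/
noncomputable def W (r : ℝ) : ℝ := (Real.sqrt (1 - r))⁻¹

/-- its derivative -/
noncomputable def W' (r : ℝ) : ℝ := (1 / (2 * Real.sqrt (1 - r))) / (Real.sqrt (1 - r)) ^ 2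

lemma W_pos {r : ℝ} (hr : r < 1) : 0 < W r := inv_pos.2 (Real.sqrt_pos.2 (by linarith))

lemma W_mono {r s : ℝ} (hrs : r ≤ s) (hs : s < 1) : W r ≤ W s := by
  unfold W
  apply inv_anti₀ (Real.sqrt_pos.2 (by linarith)) (Real.sqrt_le_sqrt (by linarith))

lemma W'_nonneg (r : ℝ) : 0 ≤ W' r := by
  unfold W'
  positivity

lemma W_deriv {r : ℝ} (hr : r < 1) : HasDerivAt W (W' r) r := by
  have h1 : HasDerivAt (fun r : ℝ => 1 - r) (-1) r := by
    simpa using (hasDerivAt_id r).const_sub 1
  have h2 := h1.sqrt (by linarith)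
  have h3 := h2.inv (Real.sqrt_pos.2 (by linarith)).ne'
  have h4 : W' r = -(-1 / (2 * Real.sqrt (1 - r))) / Real.sqrt (1 - r) ^ 2 := by
    unfold W'
    ring
  rw [h4]
  exact h3

lemma W'_meas : Measurable W' := by
  unfold W'
  fun_prop

lemma W'_cont {R : ℝ} (hR : R < 1) : ContinuousOn W' (Icc 0 R) := by
  intro r hr
  have h1 : 0 < 1 - r := by linarith [hr.2]
  have h2 : Real.sqrt (1 - r) ≠ 0 := (Real.sqrt_pos.2 h1).ne'
  apply ContinuousAt.continuousWithinAt
  unfold W'
  have h3 : ContinuousAt (fun r : ℝ => Real.sqrt (1 - r)) r := by fun_prop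
  apply ContinuousAt.div
  · apply ContinuousAt.div continuousAt_const (continuousAt_const.mul h3)
    simpa using h2
  · exact h3.pow 2
  · exact pow_ne_zero 2 h2

lemma W_ftc {t R : ℝ} (ht : 0 ≤ t) (htR : t ≤ R) (hR : R < 1) :
    ∫ r in Ioc t R, W' r = W R - W t := by
  rw [← intervalIntegral.integral_of_le htR]
  apply intervalIntegral.integral_eq_sub_of_hasDerivAt
  · intro r hr
    rw [uIcc_of_le htR] at hr
    exact W_deriv (by linarith [hr.2])
  · apply ContinuousOn.intervalIntegrable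
    rw [uIcc_of_le htR]
    exact (W'_cont hR).mono (Icc_subset_Icc_left ht)

lemma W'_bdd {R : ℝ} (hR : R < 1) : ∃ M : ℝ, ∀ r ∈ Icc 0 R, W' r ≤ M := by
  obtain ⟨M, hM⟩ := (isCompact_Icc.image_of_continuousOn (W'_cont hR)).bddAbove
  exact ⟨M, fun r hr => hM (mem_image_of_mem _ hr)⟩

lemma W'_int {R : ℝ} (hR : R < 1) : IntegrableOn W' (Ioc 0 R) :=
  ((W'_cont hR).integrableOn_compact isCompact_Icc).mono_set Ioc_subset_Icc_self

/-- The decay of rough convex phases with the surface density of the sphere. -/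
theorem wt_decay {R : ℝ} (hR0 : 0 ≤ R) (hR : R < 1) {K : Set (ℝ × ℝ)} {Ψ : ℝ × ℝ → ℝ} {σ τ : ℝ}
    (hσ : σ = 1 ∨ σ = -1) (hτ : 1 ≤ τ) (hK : ∀ x ∈ K, s2 x ≤ R)
    (hk : ConvexOn ℝ K (fun x => σ * Ψ x - τ * s2 x))
    (hm : Measurable (K.indicator fun x => cexp (I * Ψ x))) :
    ‖∫ x, ((W (s2 x) : ℝ) : ℂ) * K.indicator (fun x => cexp (I * Ψ x)) x‖ ≤
      2 * W R * (32 * (1 + Real.log (4 * τ)) / τ) := by
  set F : ℝ × ℝ → ℂ := K.indicator fun x => cexp (I * Ψ x) with hF
  set D : ℝ := 32 * (1 + Real.log (4 * τ)) / τ with hD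
  have hD0 : 0 ≤ D := by
    have : 0 ≤ Real.log (4 * τ) := Real.log_nonneg (by linarith)
    positivity
  have hKD : K ⊆ D1 := fun x hx => (hK x hx).trans hR.le
  have hFn : ∀ x, ‖F x‖ ≤ 1 := by
    intro x
    simp only [hF]
    by_cases hx : x ∈ K
    · rw [indicator_of_mem hx, mul_comm, norm_exp_ofReal_mul_I]
    · rw [indicator_of_notMem hx, norm_zero]
      exact zero_le_one
  have hF0 : ∀ x, x ∉ K → F x = 0 := fun x hx => indicator_of_notMem hx _
  set G : (ℝ × ℝ) → ℝ → ℂ := fun x r => ((W' r : ℝ) : ℂ) * (if s2 x < r then F x else 0) with hG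
  -- the decomposition
  have hdec : ∀ x, ((W (s2 x) : ℝ) : ℂ) * F x =
      ((W R : ℝ) : ℂ) * F x - ∫ r in Ioc 0 R, G x r := by
    intro x
    by_cases hx : x ∈ K
    · have h1 : ∫ r in Ioc 0 R, G x r = ((∫ r in Ioc (s2 x) R, W' r : ℝ) : ℂ) * F x := by
        have h2 : ∀ r, G x r = (Ioi (s2 x)).indicator (fun r => ((W' r : ℝ) : ℂ) * F x) r := by
          intro r
          simp only [hG]
          by_cases h : s2 x < r
          · rw [if_pos h, indicator_of_mem (show r ∈ Ioi (s2 x) from h)]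
          · rw [if_neg h, indicator_of_notMem (show r ∉ Ioi (s2 x) from h), mul_zero]
        simp only [h2]
        rw [setIntegral_indicator measurableSet_Ioi]
        have h3 : Ioc 0 R ∩ Ioi (s2 x) = Ioc (s2 x) R := by
          ext r
          constructor
          · rintro ⟨⟨_, h5⟩, h6⟩
            exact ⟨h6, h5⟩
          · rintro ⟨h5, h6⟩
            exact ⟨⟨(s2_nonneg x).trans_lt h5, h6⟩, h5⟩
        rw [h3, integral_mul_const]
        congr 1
        exact integral_ofReal
      rw [h1, W_ftc (s2_nonneg x) (hK x hx) hR]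
      push_cast
      ring
    · have h1 : ∀ r, G x r = 0 := by
        intro r
        simp only [hG, hF0 x hx]
        simp
      simp only [h1, integral_zero, hF0 x hx, mul_zero, sub_zero]
  have hfin : IsFiniteMeasure ((volume : Measure (ℝ × ℝ)).restrict D1) :=
    ⟨by rw [Measure.restrict_apply_univ]; exact D1_fin⟩
  have hfin2 : IsFiniteMeasure ((volume : Measure ℝ).restrict (Ioc 0 R)) :=
    ⟨by rw [Measure.restrict_apply_univ, Real.volume_Ioc]; exact ENNReal.ofReal_lt_top⟩
  have hFD : ∀ x, x ∉ D1 → F x = 0 := fun x hx => hF0 x fun h => hx (hKD h)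
  have hGD : ∀ x, x ∉ D1 → (∫ r in Ioc 0 R, G x r) = 0 := by
    intro x hx
    have h1 : ∀ r, G x r = 0 := by
      intro r
      simp only [hG, hFD x hx]
      simp
    simp only [h1, integral_zero]
  have hFi : Integrable F (volume.restrict D1) :=
    Integrable.of_bound hm.aestronglyMeasurable 1 (ae_of_all _ hFn)
  have hGm : Measurable (Function.uncurry G) := by
    simp only [hG, Function.uncurry_def]
    apply Measurable.mul
    · exact Complex.measurable_ofReal.comp (W'_meas.comp measurable_snd)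
    · apply Measurable.ite
      · exact measurableSet_lt (s2_meas.comp measurable_fst) measurable_snd
      · exact hm.comp measurable_fst
      · exact measurable_const
  obtain ⟨M, hM⟩ := W'_bdd hR
  have hGi : Integrable (Function.uncurry G)
      ((volume.restrict D1).prod (volume.restrict (Ioc 0 R))) := by
    refine Integrable.of_bound hGm.aestronglyMeasurable M ?_
    have h1 : ∀ᵐ p : (ℝ × ℝ) × ℝ ∂((volume.restrict D1).prod (volume.restrict (Ioc 0 R))),
        p.2 ∈ Ioc 0 R := by
      have h2 : ∀ᵐ r ∂(volume.restrict (Ioc (0 : ℝ) R)), r ∈ Ioc 0 R :=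
        ae_restrict_mem measurableSet_Ioc
      exact Measure.quasiMeasurePreserving_snd.ae h2
    filter_upwards [h1] with p hp
    simp only [Function.uncurry, hG]
    rw [norm_mul, Complex.norm_real, Real.norm_of_nonneg (W'_nonneg _)]
    have h2 : ‖(if s2 p.1 < p.2 then F p.1 else 0)‖ ≤ 1 := by
      split_ifs
      · exact hFn _
      · rw [norm_zero]
        exact zero_le_one
    calc W' p.2 * ‖(if s2 p.1 < p.2 then F p.1 else 0)‖ ≤ W' p.2 * 1 :=
          mul_le_mul_of_nonneg_left h2 (W'_nonneg _)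
      _ = W' p.2 := mul_one _
      _ ≤ M := hM _ ⟨hp.1.le, hp.2⟩
  have hsplit : ∫ x, ((W (s2 x) : ℝ) : ℂ) * F x =
      ((W R : ℝ) : ℂ) * (∫ x, F x) - ∫ r in Ioc 0 R, ∫ x in D1, G x r := by
    have h1 : ∫ x, ((W (s2 x) : ℝ) : ℂ) * F x = ∫ x in D1, ((W (s2 x) : ℝ) : ℂ) * F x := by
      symm
      apply setIntegral_eq_integral_of_forall_compl_eq_zero
      intro x hx
      rw [hFD x hx, mul_zero]
    have h2 : ∫ x, F x = ∫ x in D1, F x := by
      symm
      apply setIntegral_eq_integral_of_forall_compl_eq_zero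
      intro x hx
      rw [hFD x hx]
    rw [h1, h2, ← integral_integral_swap hGi]
    simp only [hdec]
    have h3 : Integrable (fun x => ∫ r in Ioc 0 R, G x r) (volume.restrict D1) :=
      hGi.integral_prod_left
    rw [integral_sub (hFi.const_mul _) h3, integral_const_mul]
  rw [hsplit]
  have hb1 : ‖∫ x, F x‖ ≤ D := decay_sign hσ hτ hKD hk hm
  have hb2 : ∀ r, ‖∫ x in D1, G x r‖ ≤ W' r * D := by
    intro r
    have h1 : ∫ x in D1, G x r = ((W' r : ℝ) : ℂ) * ∫ x, (K ∩ {x | s2 x < r}).indicator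
        (fun x => cexp (I * Ψ x)) x := by
      simp only [hG]
      rw [integral_const_mul]
      congr 1
      rw [setIntegral_eq_integral_of_forall_compl_eq_zero]
      · apply integral_congr_ae
        refine ae_of_all _ fun x => ?_
        simp only [hF]
        by_cases hx : x ∈ K
        · by_cases h : s2 x < r
          · rw [if_pos h, indicator_of_mem hx, indicator_of_mem (show x ∈ K ∩ {x | s2 x < r} from ⟨hx, h⟩)]
          · rw [if_neg h, indicator_of_notMem (fun h' => h h'.2)]
        · rw [indicator_of_notMem hx, indicator_of_notMem (fun h' => hx h'.1)]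
          simp
      · intro x hx
        rw [hFD x hx]
        simp
    rw [h1, norm_mul, Complex.norm_real, Real.norm_of_nonneg (W'_nonneg _)]
    apply mul_le_mul_of_nonneg_left _ (W'_nonneg _)
    have hcv : Convex ℝ (K ∩ {x : ℝ × ℝ | s2 x < r}) := by
      apply hk.1.inter
      intro x hx y hy a b ha hb hab
      have hb' : b = 1 - a := by linarith
      have h0 : s2 (a • x + b • y) ≤ a * s2 x + b * s2 y := by
        subst hb'
        simp only [s2, Pool.Agent.TH277.CP.sq, Prod.fst_add, Prod.snd_add, Prod.smul_fst,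
          Prod.smul_snd, smul_eq_mul]
        nlinarith [mul_nonneg (mul_nonneg ha hb) (_root_.sq_nonneg (x.1 - y.1)),
          mul_nonneg (mul_nonneg ha hb) (_root_.sq_nonneg (x.2 - y.2))]
      have hx' : s2 x < r := hx
      have hy' : s2 y < r := hy
      show s2 (a • x + b • y) < r
      refine h0.trans_lt ?_
      rcases ha.eq_or_lt with h | h
      · subst h
        have : b = 1 := by linarith
        subst this
        linarith
      · have h5 : a * s2 x < a * r := mul_lt_mul_of_pos_left hx' h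
        have h6 : b * s2 y ≤ b * r := mul_le_mul_of_nonneg_left hy'.le hb
        have h7 : a * r + b * r = r := by rw [← add_mul, hab, one_mul]
        linarith
    apply decay_sign hσ hτ (inter_subset_left.trans hKD) (hk.subset inter_subset_left hcv)
    have h2 : (K ∩ {x : ℝ × ℝ | s2 x < r}).indicator (fun x => cexp (I * Ψ x)) =
        ({x : ℝ × ℝ | s2 x < r}).indicator F := by
      rw [hF, indicator_indicator, inter_comm]
    rw [h2]
    exact hm.indicator (measurableSet_lt s2_meas measurable_const)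
  calc ‖((W R : ℝ) : ℂ) * (∫ x, F x) - ∫ r in Ioc 0 R, ∫ x in D1, G x r‖
      ≤ ‖((W R : ℝ) : ℂ) * (∫ x, F x)‖ + ‖∫ r in Ioc 0 R, ∫ x in D1, G x r‖ := norm_sub_le _ _
    _ ≤ W R * D + ∫ r in Ioc 0 R, W' r * D := by
        apply add_le_add
        · rw [norm_mul, Complex.norm_real, Real.norm_of_nonneg (W_pos hR).le]
          exact mul_le_mul_of_nonneg_left hb1 (W_pos hR).le
        · exact norm_integral_le_of_norm_le ((W'_int hR).mul_const _) (ae_of_all _ hb2)
    _ = W R * D + (W R - W 0) * D := by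
        rw [integral_mul_const, W_ftc le_rfl hR0 hR]
    _ ≤ 2 * W R * D := by
        have := W_pos zero_lt_one
        nlinarith

end Pool.Agent.TH277.CS
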