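import Mathlib
import Pool.Agent.TH277.CS.B
import Pool.Agent.W612.SP.SPH
import Pool.Agent.W933.SP.FD
set_option autoImplicit false
set_option linter.unusedSectionVars false

/-! From the sphere to the graph over the disc. -/

namespace Pool.Agent.TH277.CS

open MeasureTheory Set Complex Metric
open scoped ENNReal NNReal RealInnerProductSpace
open Pool.Agent.W203.SP (sg up S_SPH)
open Pool.Agent.W933.SP (HS half_meas wt2 up_meas up_last up_cast wt2_meas HS_meas)

/-- the space -/
abbrev E3 := EuclideanSpace ℝ (Fin 3)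
/-- the plane -/
abbrev E2 := EuclideanSpace ℝ (Fin 2)

/-- coordinates of the plane -/
def e2 (y : E2) : ℝ × ℝ := (y 0, y 1)

/-- coordinates of the plane -/
noncomputable def e2i (y : ℝ × ℝ) : E2 := WithLp.toLp 2 ![y.1, y.2]

lemma e2_mp : MeasurePreserving e2 := by
  have h1 := (volume_preserving_finTwoArrow ℝ).comp
    (PiLp.volume_preserving_ofLp (Fin 2))
  exact h1

lemma e2i_meas : Measurable e2i := by
  unfold e2i
  apply (PiLp.volume_preserving_toLp (Fin 2)).measurable.comp
  rw [measurable_pi_iff]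
  intro j
  fin_cases j
  · exact measurable_fst
  · exact measurable_snd

lemma e2i_e2 (y : E2) : e2i (e2 y) = y := by
  ext j
  fin_cases j <;> rfl

lemma e2_e2i (y : ℝ × ℝ) : e2 (e2i y) = y := rfl

lemma s2_e2 (y : E2) : s2 (e2 y) = ‖y‖ ^ 2 := by
  rw [EuclideanSpace.real_norm_sq_eq, Fin.sum_univ_two]
  rfl

/-- the disc -/
def D0 : Set (ℝ × ℝ) := {y | s2 y < 1}

lemma D0_meas : MeasurableSet D0 := measurableSet_lt s2_meas measurable_const

lemma e2_pre : e2 ⁻¹' D0 = ball (0 : E2) 1 := by
  ext y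
  rw [mem_ball_zero_iff]
  show s2 (e2 y) < 1 ↔ _
  rw [s2_e2]
  constructor
  · intro h
    nlinarith [norm_nonneg y]
  · intro h
    nlinarith [norm_nonneg y]

/-- the point of the half sphere -/
noncomputable def pt (y : ℝ × ℝ) : E3 := if s2 y < 1 then up (k := 2) (e2i y) else up (k := 2) 0

lemma norm_up {y : E2} (hy : ‖y‖ ^ 2 ≤ 1) : ‖up (k := 2) y‖ = 1 := by
  have h1 : ‖up (k := 2) y‖ ^ 2 = 1 := by
    rw [Pool.Agent.W612.SP.up_sn, Pool.Agent.W612.SP.sn_norm, Real.sq_sqrt (by linarith)]
    ring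
  have h2 : 0 ≤ ‖up (k := 2) y‖ := norm_nonneg _
  nlinarith

lemma pt_mem (y : ℝ × ℝ) : pt y ∈ sphere (0 : E3) 1 := by
  rw [mem_sphere_zero_iff_norm]
  unfold pt
  split_ifs with h
  · apply norm_up
    rw [← s2_e2, e2_e2i]
    exact h.le
  · apply norm_up
    simp

/-- the point of the half sphere -/
noncomputable def u (y : ℝ × ℝ) : sphere (0 : E3) 1 := ⟨pt y, pt_mem y⟩

lemma pt_meas : Measurable pt := by
  unfold pt
  apply Measurable.ite D0_meas
  · exact up_meas.comp e2i_meas
  · exact measurable_const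

lemma u_meas : Measurable u := pt_meas.subtype_mk

lemma u_0 {y : ℝ × ℝ} (hy : s2 y < 1) : (u y : E3) 0 = y.1 := by
  show (pt y) 0 = y.1
  unfold pt
  rw [if_pos hy]
  exact up_cast (e2i y) 0

lemma u_1 {y : ℝ × ℝ} (hy : s2 y < 1) : (u y : E3) 1 = y.2 := by
  show (pt y) 1 = y.2
  unfold pt
  rw [if_pos hy]
  exact up_cast (e2i y) 1

lemma u_2 {y : ℝ × ℝ} (hy : s2 y < 1) : (u y : E3) 2 = Real.sqrt (1 - s2 y) := by
  show (pt y) 2 = _
  unfold pt
  rw [if_pos hy]
  have := up_last (e2i y)
  rw [← s2_e2, e2_e2i] at this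
  exact this

/-- the surface measure -/
noncomputable def sigma : Measure (sphere (0 : E3) 1) := (volume : Measure E3).toSphere

/-- the upper half sphere -/
def HP : Set (sphere (0 : E3) 1) := {x | 0 < (x : E3) 2}

lemma HP_meas : MeasurableSet HP := by
  apply measurableSet_lt measurable_const
  have h1 : Measurable fun x : E3 => x 2 := by fun_prop
  exact h1.comp measurable_subtype_coe

/-- the measure of the plane -/
noncomputable def mu : Measure (ℝ × ℝ) :=
  (volume.restrict D0).withDensity fun y => ENNReal.ofReal (W (s2 y))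

lemma W_meas : Measurable W := by
  unfold W
  fun_prop

lemma Ws_meas : Measurable fun y : ℝ × ℝ => ENNReal.ofReal (W (s2 y)) :=
  (W_meas.comp s2_meas).ennreal_ofReal

lemma mu_ball {A : Set E3} (hA : MeasurableSet A) :
    ((volume.restrict (ball (0 : E2) 1)).withDensity fun y => ENNReal.ofReal (wt2 y))
      (up (k := 2) ⁻¹' A) = mu ((fun y => (u y : E3)) ⁻¹' A) := by
  have hm1 : MeasurableSet (up (k := 2) ⁻¹' A) := up_meas hA
  have hm2 : MeasurableSet ((fun y => (u y : E3)) ⁻¹' A) :=
    (measurable_subtype_coe.comp u_meas) hA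
  unfold mu
  rw [withDensity_apply _ hm1, withDensity_apply _ hm2, Measure.restrict_restrict hm1,
    Measure.restrict_restrict hm2]
  have h1 := e2_mp.setLIntegral_comp_preimage (hm2.inter D0_meas) Ws_meas
  rw [← h1]
  have h2 : e2 ⁻¹' ((fun y => (u y : E3)) ⁻¹' A ∩ D0) = up (k := 2) ⁻¹' A ∩ ball (0 : E2) 1 := by
    rw [preimage_inter, e2_pre]
    ext y
    constructor
    · rintro ⟨h3, h4⟩
      refine ⟨?_, h4⟩
      have h5 : s2 (e2 y) < 1 := by
        have : y ∈ e2 ⁻¹' D0 := by rw [e2_pre]; exact h4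
        exact this
      have h6 : pt (e2 y) ∈ A := h3
      unfold pt at h6
      rw [if_pos h5, e2i_e2] at h6
      exact h6
    · rintro ⟨h3, h4⟩
      refine ⟨?_, h4⟩
      have h5 : s2 (e2 y) < 1 := by
        have : y ∈ e2 ⁻¹' D0 := by rw [e2_pre]; exact h4
        exact this
      show pt (e2 y) ∈ A
      unfold pt
      rw [if_pos h5, e2i_e2]
      exact h3
  rw [h2]
  apply lintegral_congr
  intro y
  congr 1
  rw [s2_e2]
  unfold wt2 W
  rw [one_div]

/-- The surface measure of the upper half sphere. -/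
theorem sigma_eq : sigma.restrict HP = Measure.map u mu := by
  ext A hA
  have hemb : MeasurableEmbedding (Subtype.val : sphere (0 : E3) 1 → E3) :=
    MeasurableEmbedding.subtype_coe isClosed_sphere.measurableSet
  set A' : Set E3 := Subtype.val '' A with hA'
  have hA'm : MeasurableSet A' := hemb.measurableSet_image.2 hA
  have h1 := congrArg (fun m : Measure (EuclideanSpace ℝ (Fin 3)) => m A')
    (half_meas (k := 2) Pool.Agent.W612.SP.t_SPH)
  rw [Measure.restrict_apply hA'm, Measure.map_apply up_meas hA'm] at h1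
  have h3 : (Subtype.val : sphere (0 : E3) 1 → E3) ⁻¹' A' = A :=
    preimage_image_eq A Subtype.val_injective
  have h2 : (sg (2 + 1)) (A' ∩ HS 2) = sigma (A ∩ HP) := by
    unfold sg
    rw [Measure.map_apply measurable_subtype_coe (hA'm.inter HS_meas), preimage_inter]
    have h4 : (fun x : sphere (0 : E3) 1 => (x : E3)) ⁻¹' A' = A := h3
    have h5 : (fun x : sphere (0 : E3) 1 => (x : E3)) ⁻¹' (HS 2) = HP := rfl
    exact congrArg sigma (congrArg₂ (· ∩ ·) h4 h5)
  rw [Measure.restrict_apply hA, Measure.map_apply u_meas hA, ← h2, h1, mu_ball hA'm]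
  congr 1
  show (fun y => (u y : E3)) ⁻¹' A' = _
  have h4 : (fun y => (u y : E3)) = Subtype.val ∘ u := rfl
  rw [h4, preimage_comp, h3]

lemma W_nonneg (r : ℝ) : 0 ≤ W r := by
  unfold W
  positivity

/-- Integrals over the upper half sphere. -/
lemma int_sphere (F : sphere (0 : E3) 1 → ℂ) (hF : Measurable F) (h0 : ∀ x, x ∉ HP → F x = 0) :
    ∫ x, F x ∂sigma = ∫ y in D0, ((W (s2 y) : ℝ) : ℂ) * F (u y) := by
  have h1 : ∫ x, F x ∂sigma = ∫ x in HP, F x ∂sigma := by
    symm
    apply setIntegral_eq_integral_of_forall_compl_eq_zero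
    exact h0
  rw [h1, sigma_eq, integral_map u_meas.aemeasurable hF.aestronglyMeasurable]
  unfold mu
  rw [integral_withDensity_eq_integral_toReal_smul Ws_meas
    (ae_of_all _ fun _ => ENNReal.ofReal_lt_top)]
  apply integral_congr_ae
  refine ae_of_all _ fun y => ?_
  simp only
  rw [ENNReal.toReal_ofReal (W_nonneg _), Complex.real_smul]

/-- Integrals over the upper half sphere. -/
lemma lint_sphere (F : sphere (0 : E3) 1 → ℝ≥0∞) (hF : Measurable F) :
    ∫⁻ x in HP, F x ∂sigma = ∫⁻ y in D0, ENNReal.ofReal (W (s2 y)) * F (u y) := by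
  rw [sigma_eq, lintegral_map hF u_meas]
  unfold mu
  rw [lintegral_withDensity_eq_lintegral_mul _ Ws_meas
    (show Measurable fun y => F (u y) from hF.comp u_meas)]
  rfl

end Pool.Agent.TH277.CS
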