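import Mathlib
import Pool.Agent.TH277.CS.C
set_option autoImplicit false
set_option linter.unusedSectionVars false

/-! Rough convex phases on the sphere. -/

namespace Pool.Agent.TH277.CS

open MeasureTheory Set Complex Metric
open scoped ENNReal NNReal RealInnerProductSpace

lemma scale1 (H : ℝ → ℝ≥0∞) (hH : Measurable H) :
    ∫⁻ t, H (-(2 * Real.pi) * t) ≤ ∫⁻ t, H t := by
  have h0 : -(2 * Real.pi) ≠ 0 := by
    have := Real.pi_pos
    linarith
  have h1 := Real.map_volume_mul_left h0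
  have h2 : ∫⁻ t, H (-(2 * Real.pi) * t) =
      ∫⁻ t, H t ∂(Measure.map (fun t : ℝ => -(2 * Real.pi) * t) volume) :=
    (lintegral_map hH (measurable_const_mul _)).symm
  rw [h2, h1, lintegral_smul_measure, smul_eq_mul]
  have h3 : ENNReal.ofReal |(-(2 * Real.pi))⁻¹| ≤ 1 := by
    rw [ENNReal.ofReal_le_one, abs_inv, abs_neg, abs_of_pos (by positivity)]
    apply inv_le_one_of_one_le₀
    linarith [Real.pi_gt_three]
  calc _ ≤ 1 * ∫⁻ t, H t := by gcongr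
    _ = _ := one_mul _

lemma scale2 (H : ℝ × ℝ → ℝ≥0∞) (hH : Measurable H) :
    ∫⁻ y, H ((2 * Real.pi) • y) ≤ ∫⁻ y, H y := by
  have h0 : (2 * Real.pi) ≠ 0 := by positivity
  have h1 := Measure.map_addHaar_smul (volume : Measure (ℝ × ℝ)) h0
  have h2 : ∫⁻ y, H ((2 * Real.pi) • y) =
      ∫⁻ y, H y ∂(Measure.map ((2 * Real.pi) • · : ℝ × ℝ → ℝ × ℝ) volume) :=
    (lintegral_map hH (measurable_const_smul _)).symm
  rw [h2, h1, lintegral_smul_measure, smul_eq_mul]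
  have h3 : ENNReal.ofReal |((2 * Real.pi) ^ Module.finrank ℝ (ℝ × ℝ))⁻¹| ≤ 1 := by
    rw [ENNReal.ofReal_le_one, abs_of_nonneg (by positivity)]
    apply inv_le_one_of_one_le₀
    apply one_le_pow₀
    linarith [Real.pi_gt_three]
  calc _ ≤ 1 * ∫⁻ t, H t := by gcongr
    _ = _ := one_mul _

/-- the change of variables -/
noncomputable def L (ξ : E3) : (ℝ × ℝ) × ℝ :=
  ((2 * Real.pi * ξ 0, 2 * Real.pi * ξ 1), -(2 * Real.pi) * ξ 2)

lemma L_le (Φ : (ℝ × ℝ) × ℝ → ℝ≥0∞) (hΦ : Measurable Φ) :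
    ∫⁻ ξ : E3, Φ (L ξ) ≤ ∫⁻ p, Φ p := by
  have hLm : Measurable L := by
    unfold L
    fun_prop
  rw [Pool.Agent.W612.SP.split (k := 2) (fun ξ => Φ (L ξ)) (hΦ.comp hLm)]
  have h1 : ∀ (y : E2) (t : ℝ), L (Pool.Agent.W612.SP.sn y t) =
      ((2 * Real.pi) • e2 y, -(2 * Real.pi) * t) := by
    intro y t
    unfold L
    have h2 := Pool.Agent.W612.SP.sn_last y t
    have h3 := Pool.Agent.W612.SP.sn_cast y t 0
    have h4 := Pool.Agent.W612.SP.sn_cast y t 1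
    have h2' : (Pool.Agent.W612.SP.sn y t) 2 = t := h2
    have h3' : (Pool.Agent.W612.SP.sn y t) 0 = y 0 := h3
    have h4' : (Pool.Agent.W612.SP.sn y t) 1 = y 1 := h4
    rw [h2', h3', h4']
    rfl
  simp only [h1]
  have hm2 : Measurable fun y : ℝ × ℝ => ∫⁻ t, Φ ((2 * Real.pi) • y, -(2 * Real.pi) * t) := by
    apply Measurable.lintegral_prod_right' (f := fun p : (ℝ × ℝ) × ℝ =>
      Φ ((2 * Real.pi) • p.1, -(2 * Real.pi) * p.2))
    fun_prop
  have h2 : ∫⁻ y : E2, ∫⁻ t, Φ ((2 * Real.pi) • e2 y, -(2 * Real.pi) * t) =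
      ∫⁻ y : ℝ × ℝ, ∫⁻ t, Φ ((2 * Real.pi) • y, -(2 * Real.pi) * t) :=
    e2_mp.lintegral_comp hm2
  have h3 : ∫⁻ y : ℝ × ℝ, ∫⁻ t, Φ ((2 * Real.pi) • y, -(2 * Real.pi) * t) ≤
      ∫⁻ y : ℝ × ℝ, ∫⁻ t, Φ ((2 * Real.pi) • y, t) := by
    apply lintegral_mono
    intro y
    exact scale1 (fun t => Φ ((2 * Real.pi) • y, t)) (by fun_prop)
  have h4 : ∫⁻ y : ℝ × ℝ, ∫⁻ t, Φ ((2 * Real.pi) • y, t) ≤ ∫⁻ y : ℝ × ℝ, ∫⁻ t, Φ (y, t) := by
    apply scale2 (fun y => ∫⁻ t, Φ (y, t))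
    exact hΦ.lintegral_prod_right'
  have h5 : ∫⁻ p, Φ p = ∫⁻ y : ℝ × ℝ, ∫⁻ t, Φ (y, t) := by
    rw [Measure.volume_eq_prod, lintegral_prod _ hΦ.aemeasurable]
  rw [h5]
  exact (h2.le.trans h3).trans h4

/-- The Fourier transform of a density on the sphere. -/
noncomputable def ft (f : sphere (0 : E3) 1 → ℂ) (ξ : E3) : ℂ :=
  ∫ x, cexp (-(2 * Real.pi * I * ((⟪(x : E3), ξ⟫ : ℝ) : ℂ))) * f x ∂sigma

/-- rough convex phases on the sphere -/
def IsAtom (ρ σ T : ℝ) (f : sphere (0 : E3) 1 → ℂ) : Prop :=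
  ∃ (K : Set (ℝ × ℝ)) (φ : ℝ × ℝ → ℝ) (c : ℂ), (∀ y ∈ K, y.1 ^ 2 + y.2 ^ 2 ≤ ρ ^ 2) ∧ ‖c‖ ≤ 1 ∧
    ConvexOn ℝ K (fun y => σ * φ y - T * Real.sqrt (1 - (y.1 ^ 2 + y.2 ^ 2))) ∧
    ∀ x : sphere (0 : E3) 1, ((0 < (x : E3) 2 ∧ ((x : E3) 0, (x : E3) 1) ∈ K) →
        f x = c * cexp (I * φ ((x : E3) 0, (x : E3) 1))) ∧
      (¬ (0 < (x : E3) 2 ∧ ((x : E3) 0, (x : E3) 1) ∈ K) → f x = 0)

/-- the pulled back family -/
noncomputable def pb {S : Type} (g : S → sphere (0 : E3) 1 → ℂ) (s : S) (y : ℝ × ℝ) : ℂ :=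
  D0.indicator (fun y => ((W (s2 y) : ℝ) : ℂ) * g s (u y)) y

lemma atom_pt {ρ : ℝ} (hρ0 : 0 ≤ ρ) (hρ : ρ < 1) {f : sphere (0 : E3) 1 → ℂ}
    {K : Set (ℝ × ℝ)} {φ : ℝ × ℝ → ℝ} {c : ℂ} (hK : ∀ y ∈ K, y.1 ^ 2 + y.2 ^ 2 ≤ ρ ^ 2)
    (hf : ∀ x : sphere (0 : E3) 1, ((0 < (x : E3) 2 ∧ ((x : E3) 0, (x : E3) 1) ∈ K) →
        f x = c * cexp (I * φ ((x : E3) 0, (x : E3) 1))) ∧
      (¬ (0 < (x : E3) 2 ∧ ((x : E3) 0, (x : E3) 1) ∈ K) → f x = 0)) (y : ℝ × ℝ) :
    D0.indicator (fun y => f (u y)) y = c * K.indicator (fun y => cexp (I * φ y)) y := by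
  by_cases hy : y ∈ D0
  · rw [indicator_of_mem hy]
    have hy' : s2 y < 1 := hy
    have h1 := hf (u y)
    rw [u_0 hy', u_1 hy', u_2 hy'] at h1
    have h2 : 0 < Real.sqrt (1 - s2 y) := Real.sqrt_pos.2 (by linarith)
    by_cases hyK : y ∈ K
    · rw [indicator_of_mem hyK]
      exact h1.1 ⟨h2, hyK⟩
    · rw [indicator_of_notMem hyK, mul_zero]
      exact h1.2 fun h => hyK h.2
  · rw [indicator_of_notMem hy, indicator_of_notMem, mul_zero]
    intro h
    apply hy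
    show s2 y < 1
    have h1 : s2 y ≤ ρ ^ 2 := hK y h
    nlinarith

lemma pb_fam {S : Type} [MeasurableSpace S] {ρ σ T : ℝ} (hρ0 : 0 ≤ ρ) (hρ : ρ < 1)
    (hσ : σ = 1 ∨ σ = -1) {g : S → sphere (0 : E3) 1 → ℂ} (hm : Measurable (Function.uncurry g))
    (ha : ∀ s, IsAtom ρ σ T (g s)) :
    Fam Gs (1 / 2) (2 * W (ρ ^ 2)) σ T (pb g) := by
  have hρ2 : ρ ^ 2 < 1 := by nlinarith
  have hW : 0 < W (ρ ^ 2) := W_pos hρ2
  have hpb : ∀ s y, pb g s y = ((W (s2 y) : ℝ) : ℂ) * D0.indicator (fun y => g s (u y)) y := by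
    intro s y
    unfold pb
    by_cases hy : y ∈ D0
    · rw [indicator_of_mem hy, indicator_of_mem hy]
    · rw [indicator_of_notMem hy, indicator_of_notMem hy, mul_zero]
  constructor
  · have h1 : Function.uncurry (pb g) = (univ ×ˢ D0 : Set (S × (ℝ × ℝ))).indicator
        fun p => ((W (s2 p.2) : ℝ) : ℂ) * g p.1 (u p.2) := by
      ext p
      unfold pb
      simp only [Function.uncurry]
      by_cases hp : p.2 ∈ D0
      · rw [indicator_of_mem hp, indicator_of_mem (show p ∈ univ ×ˢ D0 from ⟨mem_univ _, hp⟩)]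
      · rw [indicator_of_notMem hp,
          indicator_of_notMem (show p ∉ univ ×ˢ D0 from fun h => hp h.2)]
    rw [h1]
    apply Measurable.indicator _ (MeasurableSet.univ.prod D0_meas)
    apply Measurable.mul
    · exact Complex.measurable_ofReal.comp ((W_meas.comp s2_meas).comp measurable_snd)
    · have h2 : Measurable fun p : S × (ℝ × ℝ) => (p.1, u p.2) :=
        measurable_fst.prodMk (u_meas.comp measurable_snd)
      exact hm.comp h2
  · intro s y hy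
    unfold pb
    apply indicator_of_notMem
    intro h
    apply hy
    exact le_of_lt (show s2 y < 1 from h)
  · intro s y
    obtain ⟨K, φ, c, hK, hc, hk, hf⟩ := ha s
    rw [hpb, atom_pt hρ0 hρ hK hf]
    by_cases hy : y ∈ K
    · rw [indicator_of_mem hy, norm_mul, norm_mul, Complex.norm_real,
        Real.norm_of_nonneg (W_nonneg _), mul_comm I, norm_exp_ofReal_mul_I, mul_one]
      have h1 : W (s2 y) ≤ W (ρ ^ 2) := W_mono (hK y hy) hρ2
      have h2 : 0 ≤ W (s2 y) := W_nonneg _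
      have h3 : 0 ≤ ‖c‖ := norm_nonneg c
      nlinarith
    · rw [indicator_of_notMem hy, mul_zero, mul_zero, norm_zero]
      positivity
  · intro s ξ h1
    obtain ⟨K, φ, c, hK, hc, hk, hf⟩ := ha s
    set τ : ℝ := 1 / 2 * (-σ * ξ.2 - T) with hτ
    have hlog : 0 ≤ Real.log (4 * τ) := Real.log_nonneg (by linarith)
    have hD : 0 ≤ 2 * W (ρ ^ 2) * (32 * (1 + Real.log (4 * τ)) / τ) := by positivity
    rcases eq_or_ne c 0 with hc0 | hc0
    · have h2 : ∀ y, ph Gs ξ y * pb g s y = 0 := by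
        intro y
        rw [hpb, atom_pt hρ0 hρ hK hf, hc0, zero_mul, mul_zero, mul_zero]
      simp only [h2, integral_zero, norm_zero]
      exact hD
    set Ψ : ℝ × ℝ → ℝ := fun y => φ y - (y.1 * ξ.1.1 + y.2 * ξ.1.2 + Gs y * ξ.2) with hΨ
    have hphi : Measurable (K.indicator fun y => cexp (I * φ y)) := by
      have h2 : (K.indicator fun y => cexp (I * φ y)) =
          fun y => c⁻¹ * D0.indicator (fun y => g s (u y)) y := by
        ext y
        rw [atom_pt hρ0 hρ hK hf, ← mul_assoc, inv_mul_cancel₀ hc0, one_mul]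
      rw [h2]
      apply Measurable.const_mul
      apply Measurable.indicator _ D0_meas
      have h3 : Measurable fun y : ℝ × ℝ => (s, u y) := measurable_const.prodMk u_meas
      exact hm.comp h3
    have hpsi : ∀ y, K.indicator (fun y => cexp (I * Ψ y)) y =
        ph Gs ξ y * K.indicator (fun y => cexp (I * φ y)) y := by
      intro y
      by_cases hy : y ∈ K
      · rw [indicator_of_mem hy, indicator_of_mem hy]
        unfold ph
        rw [← Complex.exp_add]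
        congr 1
        simp only [hΨ]
        push_cast
        ring
      · rw [indicator_of_notMem hy, indicator_of_notMem hy, mul_zero]
    have hpsim : Measurable (K.indicator fun y => cexp (I * Ψ y)) := by
      have h2 : (K.indicator fun y => cexp (I * Ψ y)) =
          fun y => ph Gs ξ y * K.indicator (fun y => cexp (I * φ y)) y := funext hpsi
      rw [h2]
      exact (ph_meas Gs_meas ξ).mul hphi
    have hKD : K ⊆ D1 := fun y hy => (show s2 y ≤ ρ ^ 2 from hK y hy).trans hρ2.le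
    have hconv : ConvexOn ℝ K (fun y => σ * Ψ y - τ * s2 y) := by
      have h2 := Gs_conv hk.1 hKD
      have h3 : ConvexOn ℝ K (fun y => (-σ * ξ.2 - T) * (Gs y - (1 / 2) * s2 y)) := by
        have h4 := h2.smul (c := -σ * ξ.2 - T) (by linarith)
        exact h4
      have h5 : ConvexOn ℝ K (fun y : ℝ × ℝ => -σ * (y.1 * ξ.1.1 + y.2 * ξ.1.2)) := by
        refine ⟨hk.1, ?_⟩
        intro x hx y hy a b ha' hb hab
        simp only [Prod.fst_add, Prod.snd_add, Prod.smul_fst, Prod.smul_snd, smul_eq_mul]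
        apply le_of_eq
        ring
      have h6 := (hk.add h5).add h3
      have h7 : (fun y => σ * Ψ y - τ * s2 y) = (((fun y : ℝ × ℝ =>
          σ * φ y - T * Real.sqrt (1 - (y.1 ^ 2 + y.2 ^ 2))) +
          fun y : ℝ × ℝ => -σ * (y.1 * ξ.1.1 + y.2 * ξ.1.2)) +
          fun y => (-σ * ξ.2 - T) * (Gs y - (1 / 2) * s2 y)) := by
        ext y
        have h8 : Gs y = -Real.sqrt (1 - (y.1 ^ 2 + y.2 ^ 2)) := rfl
        simp only [Pi.add_apply, hΨ, hτ, h8]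
        ring
      rw [h7]
      exact h6
    have h2 : ∫ y, ph Gs ξ y * pb g s y =
        c * ∫ y, ((W (s2 y) : ℝ) : ℂ) * K.indicator (fun y => cexp (I * Ψ y)) y := by
      rw [← integral_const_mul]
      apply integral_congr_ae
      refine ae_of_all _ fun y => ?_
      simp only
      rw [hpb, atom_pt hρ0 hρ hK hf, hpsi]
      ring
    rw [h2, norm_mul]
    have h3 := wt_decay (sq_nonneg ρ) hρ2 hσ h1 (fun x hx => hK x hx) hconv hpsim
    calc ‖c‖ * _ ≤ 1 * (2 * W (ρ ^ 2) * (32 * (1 + Real.log (4 * τ)) / τ)) :=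
          mul_le_mul hc h3 (norm_nonneg _) zero_le_one
      _ = _ := one_mul _

variable {S : Type} [MeasurableSpace S]

lemma f_meas (ν : Measure S) [IsFiniteMeasure ν] {g : S → sphere (0 : E3) 1 → ℂ}
    (hm : Measurable (Function.uncurry g)) : Measurable fun x => ∫ s, g s x ∂ν := by
  have h1 : StronglyMeasurable (Function.uncurry fun (x : sphere (0 : E3) 1) (s : S) => g s x) :=
    (hm.comp measurable_swap).stronglyMeasurable
  exact h1.integral_prod_right.measurable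

lemma f_supp {ρ σ T : ℝ} (ν : Measure S) {g : S → sphere (0 : E3) 1 → ℂ}
    (ha : ∀ s, IsAtom ρ σ T (g s)) {x : sphere (0 : E3) 1} (hx : x ∉ HP) :
    ∫ s, g s x ∂ν = 0 := by
  have h1 : ∀ s, g s x = 0 := by
    intro s
    obtain ⟨K, φ, c, hK, hc, hk, hf⟩ := ha s
    exact (hf x).2 fun h => hx h.1
  simp only [h1, integral_zero]

lemma sup_pb (ν : Measure S) (g : S → sphere (0 : E3) 1 → ℂ) (y : ℝ × ℝ) :
    sup ν (pb g) y = D0.indicator (fun y => ((W (s2 y) : ℝ) : ℂ) * ∫ s, g s (u y) ∂ν) y := by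
  unfold sup pb
  by_cases hy : y ∈ D0
  · simp only [indicator_of_mem hy]
    exact integral_const_mul _ _
  · simp only [indicator_of_notMem hy, integral_zero]

lemma ft_eq {ρ σ T : ℝ} (ν : Measure S) [IsFiniteMeasure ν] {g : S → sphere (0 : E3) 1 → ℂ}
    (hm : Measurable (Function.uncurry g)) (ha : ∀ s, IsAtom ρ σ T (g s)) (ξ : E3) :
    ft (fun x => ∫ s, g s x ∂ν) ξ = ∫ y, ph Gs (L ξ) y * sup ν (pb g) y := by
  unfold ft
  rw [int_sphere]
  · rw [← integral_indicator D0_meas]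
    apply integral_congr_ae
    refine ae_of_all _ fun y => ?_
    simp only
    rw [sup_pb]
    by_cases hy : y ∈ D0
    · rw [indicator_of_mem hy, indicator_of_mem hy]
      have hy' : s2 y < 1 := hy
      have h1 : (⟪(u y : E3), ξ⟫ : ℝ) = y.1 * ξ 0 + y.2 * ξ 1 + Real.sqrt (1 - s2 y) * ξ 2 := by
        rw [PiLp.inner_apply, Fin.sum_univ_three]
        simp only [RCLike.inner_apply, conj_trivial]
        rw [u_0 hy', u_1 hy', u_2 hy']
        ring
      rw [h1]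
      have h2 : cexp (-(2 * Real.pi * I * ((y.1 * ξ 0 + y.2 * ξ 1 +
          Real.sqrt (1 - s2 y) * ξ 2 : ℝ) : ℂ))) = ph Gs (L ξ) y := by
        unfold ph L Gs
        congr 1
        push_cast
        ring
      rw [h2]
      ring
    · rw [indicator_of_notMem hy, indicator_of_notMem hy, mul_zero]
  · apply Measurable.mul _ (f_meas ν hm)
    have h1 : Measurable fun x : sphere (0 : E3) 1 => (⟪(x : E3), ξ⟫ : ℝ) := by
      have h2 : Measurable fun x : E3 => (⟪x, ξ⟫ : ℝ) := by fun_prop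
      exact h2.comp measurable_subtype_coe
    exact Complex.measurable_exp.comp
      ((measurable_const.mul (Complex.measurable_ofReal.comp h1)).neg)
  · intro x hx
    show _ * (∫ s, g s x ∂ν) = 0
    rw [f_supp ν ha hx, mul_zero]

/-- The constant. -/
noncomputable def cs (q ρ : ℝ) : ℝ≥0∞ :=
  cst q (1 / 2) (2 * W (ρ ^ 2)) * ENNReal.ofReal (W (ρ ^ 2))

lemma cs_lt (q ρ : ℝ) (hq : 3 < q) : cs q ρ < ⊤ :=
  ENNReal.mul_lt_top (cst_lt q _ _ hq) ENNReal.ofReal_lt_top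

theorem main_sphere (q : ℝ) (hq : 3 < q) {ρ σ T : ℝ} (hρ0 : 0 ≤ ρ) (hρ : ρ < 1)
    (hσ : σ = 1 ∨ σ = -1) (ν : Measure S) [IsFiniteMeasure ν] {g : S → sphere (0 : E3) 1 → ℂ}
    (hm : Measurable (Function.uncurry g)) (ha : ∀ s, IsAtom ρ σ T (g s)) :
    ∫⁻ ξ in {ξ : E3 | T < 2 * Real.pi * σ * ξ 2}, ‖ft (fun x => ∫ s, g s x ∂ν) ξ‖ₑ ^ q ≤
      cs q ρ * ν univ ^ (q - 2) * ∫⁻ x, ‖∫ s, g s x ∂ν‖ₑ ^ (2 : ℝ) ∂sigma := by
  have hρ2 : ρ ^ 2 < 1 := by nlinarith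
  have hW : 0 < W (ρ ^ 2) := W_pos hρ2
  have hfam := pb_fam hρ0 hρ hσ hm ha
  have h1 := main q hq hσ (by norm_num) (by positivity) Gs_meas ν hfam
  set A : Set ((ℝ × ℝ) × ℝ) := {ξ | σ * ξ.2 < -T} with hA
  have hAm : MeasurableSet A :=
    measurableSet_lt (measurable_const.mul measurable_snd) measurable_const
  set Φ : (ℝ × ℝ) × ℝ → ℝ≥0∞ :=
    A.indicator fun p => ‖∫ y, ph Gs p y * sup ν (pb g) y‖ₑ ^ q with hΦ
  have hΦm : Measurable Φ :=
    ((E_meas Gs_meas _ (sup_meas ν hfam.meas)).pow_const q).indicator hAm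
  have h2 : ∫⁻ ξ in {ξ : E3 | T < 2 * Real.pi * σ * ξ 2}, ‖ft (fun x => ∫ s, g s x ∂ν) ξ‖ₑ ^ q =
      ∫⁻ ξ : E3, Φ (L ξ) := by
    have hSm : MeasurableSet {ξ : E3 | T < 2 * Real.pi * σ * ξ 2} := by
      apply measurableSet_lt measurable_const
      fun_prop
    rw [← lintegral_indicator hSm]
    apply lintegral_congr
    intro ξ
    simp only [hΦ]
    have h3 : L ξ ∈ A ↔ ξ ∈ {ξ : E3 | T < 2 * Real.pi * σ * ξ 2} := by
      show σ * (-(2 * Real.pi) * ξ 2) < -T ↔ T < 2 * Real.pi * σ * ξ 2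
      constructor <;> intro h <;> linarith
    by_cases hx : ξ ∈ {ξ : E3 | T < 2 * Real.pi * σ * ξ 2}
    · rw [indicator_of_mem hx, indicator_of_mem (h3.2 hx), ft_eq ν hm ha]
    · rw [indicator_of_notMem hx, indicator_of_notMem (fun h => hx (h3.1 h))]
  rw [h2]
  refine (L_le Φ hΦm).trans ?_
  rw [hΦ, lintegral_indicator hAm]
  refine h1.trans ?_
  have h4 : ∫⁻ y, ‖sup ν (pb g) y‖ₑ ^ (2 : ℝ) ≤
      ENNReal.ofReal (W (ρ ^ 2)) * ∫⁻ x, ‖∫ s, g s x ∂ν‖ₑ ^ (2 : ℝ) ∂sigma := by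
    have h5 : ∀ y, ‖sup ν (pb g) y‖ₑ ^ (2 : ℝ) ≤ ENNReal.ofReal (W (ρ ^ 2)) *
        D0.indicator (fun y => ENNReal.ofReal (W (s2 y)) * ‖∫ s, g s (u y) ∂ν‖ₑ ^ (2 : ℝ)) y := by
      intro y
      rw [sup_pb]
      by_cases hy : y ∈ D0
      · rw [indicator_of_mem hy, indicator_of_mem hy, enorm_mul,
          ENNReal.mul_rpow_of_nonneg _ _ (by norm_num), ← mul_assoc]
        rcases le_or_gt (s2 y) (ρ ^ 2) with h6 | h6
        · gcongr
          rw [← ofReal_norm, Complex.norm_real, Real.norm_of_nonneg (W_nonneg _),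
            ENNReal.ofReal_rpow_of_nonneg (W_nonneg _) (by norm_num),
            ← ENNReal.ofReal_mul hW.le]
          apply ENNReal.ofReal_le_ofReal
          have h7 : W (s2 y) ≤ W (ρ ^ 2) := W_mono h6 hρ2
          have h8 : 0 ≤ W (s2 y) := W_nonneg _
          have h9 : W (s2 y) ^ (2 : ℝ) = W (s2 y) * W (s2 y) := by
            rw [Real.rpow_two]
            ring
          rw [h9]
          exact mul_le_mul_of_nonneg_right h7 h8
        · have h7 : ∀ s, g s (u y) = 0 := by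
            intro s
            obtain ⟨K, φ, c, hK, hc, hk, hf⟩ := ha s
            apply (hf (u y)).2
            rw [u_0 hy, u_1 hy]
            intro h
            have h8 : s2 y ≤ ρ ^ 2 := hK y h.2
            linarith
          simp only [h7, integral_zero, enorm_zero]
          rw [ENNReal.zero_rpow_of_pos two_pos, mul_zero, mul_zero]
      · rw [indicator_of_notMem hy, indicator_of_notMem hy, enorm_zero,
          ENNReal.zero_rpow_of_pos two_pos, mul_zero]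
    calc ∫⁻ y, ‖sup ν (pb g) y‖ₑ ^ (2 : ℝ) ≤ ∫⁻ y, ENNReal.ofReal (W (ρ ^ 2)) *
        D0.indicator (fun y => ENNReal.ofReal (W (s2 y)) * ‖∫ s, g s (u y) ∂ν‖ₑ ^ (2 : ℝ)) y :=
          lintegral_mono h5
      _ = ENNReal.ofReal (W (ρ ^ 2)) * ∫⁻ y in D0,
          ENNReal.ofReal (W (s2 y)) * ‖∫ s, g s (u y) ∂ν‖ₑ ^ (2 : ℝ) := by
          rw [lintegral_const_mul' _ _ ENNReal.ofReal_ne_top, lintegral_indicator D0_meas]
      _ = ENNReal.ofReal (W (ρ ^ 2)) * ∫⁻ x in HP, ‖∫ s, g s x ∂ν‖ₑ ^ (2 : ℝ) ∂sigma := by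
          rw [lint_sphere (fun x => ‖∫ s, g s x ∂ν‖ₑ ^ (2 : ℝ)) ((f_meas ν hm).enorm.pow_const _)]
      _ ≤ _ := by
          gcongr
          exact Measure.restrict_le_self
  unfold cs
  calc cst q (1 / 2) (2 * W (ρ ^ 2)) * ν univ ^ (q - 2) * ∫⁻ y, ‖sup ν (pb g) y‖ₑ ^ (2 : ℝ)
      ≤ cst q (1 / 2) (2 * W (ρ ^ 2)) * ν univ ^ (q - 2) * (ENNReal.ofReal (W (ρ ^ 2)) *
        ∫⁻ x, ‖∫ s, g s x ∂ν‖ₑ ^ (2 : ℝ) ∂sigma) := by gcongr
    _ = _ := by ring

end Pool.Agent.TH277.CS
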